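import Mathlib

/-!
# Connected Ramsey numbers: definitions, stars with a subdivided edge
-/

set_option autoImplicit false

namespace Pool.Agent.U107.CR

/-- `Sub G F`: the graph `F` contains a (not necessarily induced) copy of `G` -/
def Sub {A B : Type*} (G : SimpleGraph A) (F : SimpleGraph B) : Prop :=
  ∃ f : A → B, Function.Injective f ∧ ∀ a b, G.Adj a b → F.Adj (f a) (f b)

/-- every totally connected graph with at least `n` vertices contains `G` or its complement
contains `H` -/
def Arrow {A B : Type} (G : SimpleGraph A) (H : SimpleGraph B) (n : ℕ) : Prop :=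
  ∀ (V : Type) [Fintype V] (F : SimpleGraph V), n ≤ Fintype.card V →
    F.Connected → Fᶜ.Connected → Sub G F ∨ Sub H Fᶜ

/-- the connected Ramsey number -/
noncomputable def cr {A B : Type} (G : SimpleGraph A) (H : SimpleGraph B) : ℕ :=
  sInf {n | 4 ≤ n ∧ Arrow G H n}

/-- the star with `k` edges and centre `0` -/
def star (k : ℕ) : SimpleGraph (Fin (k + 1)) := SimpleGraph.fromRel fun a _ => a = 0

/-- the star with `k` edges, one of them subdivided -/
def spur (k : ℕ) : SimpleGraph (Fin (k + 2)) :=
  SimpleGraph.fromRel fun a b => (a.val = 0 ∧ b.val ≤ k) ∨ (a.val = 1 ∧ b.val = k + 1)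

theorem Sub.trans {A B C : Type*} {G : SimpleGraph A} {F : SimpleGraph B} {H : SimpleGraph C}
    (h1 : Sub G F) (h2 : Sub F H) : Sub G H := by
  obtain ⟨f, hf, hf'⟩ := h1
  obtain ⟨g, hg, hg'⟩ := h2
  exact ⟨fun a => g (f a), hg.comp hf, fun a b h => hg' _ _ (hf' a b h)⟩

/-- a star in a graph is a vertex with distinct neighbours -/
theorem sub_star {V : Type*} (F : SimpleGraph V) (k : ℕ) (v : V) (g : Fin k → V)
    (hg : Function.Injective g) (hv : ∀ i, F.Adj v (g i)) : Sub (star k) F := by
  refine ⟨Fin.cons v g, ?_, ?_⟩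
  · rw [Fin.cons_injective_iff]
    refine ⟨?_, hg⟩
    rintro ⟨i, hi⟩
    exact F.irrefl (hi ▸ hv i)
  · intro a b hab
    rw [star, SimpleGraph.fromRel_adj] at hab
    obtain ⟨hne, h | h⟩ := hab
    · subst h
      obtain ⟨j, rfl⟩ := Fin.exists_succ_eq.2 (Ne.symm hne)
      simpa using hv j
    · subst h
      obtain ⟨j, rfl⟩ := Fin.exists_succ_eq.2 hne
      simpa using (hv j).symm

theorem star_sub {V : Type*} {F : SimpleGraph V} {k : ℕ} (h : Sub (star k) F) :
    ∃ (v : V) (g : Fin k → V), Function.Injective g ∧ ∀ i, F.Adj v (g i) := by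
  obtain ⟨f, hf, hf'⟩ := h
  refine ⟨f 0, fun i => f i.succ, fun i j hij => Fin.succ_injective _ (hf hij), fun i => hf' _ _ ?_⟩
  rw [star, SimpleGraph.fromRel_adj]
  exact ⟨(Fin.succ_ne_zero i).symm, Or.inl rfl⟩

/-- in a totally connected graph every vertex has a vertex at distance two -/
theorem far {V : Type*} (F : SimpleGraph V) (hF : F.Connected) (hF' : Fᶜ.Connected)
    (hc : ∃ x y : V, x ≠ y) (v : V) : ∃ w z, F.Adj v w ∧ F.Adj w z ∧ z ≠ v ∧ ¬ F.Adj v z := by
  classical
  by_contra hcon
  push Not at hcon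
  have key : ∀ u, F.Reachable v u → u = v ∨ F.Adj v u := by
    intro u hu
    rw [SimpleGraph.reachable_iff_reflTransGen] at hu
    induction hu with
    | refl => exact Or.inl rfl
    | @tail b c _ h2 ih =>
      by_cases hc : c = v
      · exact Or.inl hc
      · rcases ih with rfl | ih
        · exact Or.inr h2
        · exact Or.inr (hcon b c ih h2 hc)
  obtain ⟨x, y, hxy⟩ := hc
  obtain ⟨t, ht⟩ : ∃ t, t ≠ v := by
    by_cases h : x = v
    · exact ⟨y, fun h' => hxy (h.trans h'.symm)⟩
    · exact ⟨x, h⟩
  have h2 := hF'.preconnected v t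
  rw [SimpleGraph.reachable_iff_reflTransGen] at h2
  rcases Relation.ReflTransGen.cases_head h2 with h | ⟨c, h, _⟩
  · exact ht h.symm
  · rw [SimpleGraph.compl_adj] at h
    rcases key c (hF.preconnected v c) with h3 | h3
    · exact h.1 h3.symm
    · exact h.2 h3

theorem two_of_card {V : Type*} [Fintype V] (h : 2 ≤ Fintype.card V) : ∃ x y : V, x ≠ y :=
  Fintype.one_lt_card_iff.1 h

/-- a totally connected graph with a star contains the star with a subdivided edge -/
theorem spur_of_star {V : Type} [Fintype V] (F : SimpleGraph V) (hF : F.Connected)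
    (hF' : Fᶜ.Connected) (h4 : 2 ≤ Fintype.card V) {k : ℕ} (hk : 1 ≤ k) (h : Sub (star k) F) :
    Sub (spur k) F := by
  classical
  obtain ⟨v, g, hg, hv⟩ := star_sub h
  obtain ⟨w, z, hw, hz, hzv, hvz⟩ := far F hF hF' (two_of_card h4) v
  -- a star at `v` with `g 0 = w`
  obtain ⟨g', hg', hv', hw'⟩ : ∃ g' : Fin k → V, Function.Injective g' ∧
      (∀ i, F.Adj v (g' i)) ∧ g' ⟨0, hk⟩ = w := by
    by_cases hex : ∃ i, g i = w
    · obtain ⟨i, hi⟩ := hex
      refine ⟨fun j => g (Equiv.swap ⟨0, hk⟩ i j), fun a b hab => ?_, fun j => hv _, ?_⟩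
      · exact (Equiv.swap ⟨0, hk⟩ i).injective (hg hab)
      · simp [hi]
    · push Not at hex
      refine ⟨Function.update g ⟨0, hk⟩ w, ?_, ?_, by simp⟩
      · intro a b hab
        by_cases ha : a = ⟨0, hk⟩ <;> by_cases hb : b = ⟨0, hk⟩
        · rw [ha, hb]
        · subst ha
          rw [Function.update_self, Function.update_of_ne hb] at hab
          exact absurd hab.symm (hex b)
        · subst hb
          rw [Function.update_self, Function.update_of_ne ha] at hab
          exact absurd hab (hex a)
        · rw [Function.update_of_ne ha, Function.update_of_ne hb] at hab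
          exact hg hab
      · intro i
        by_cases hi : i = ⟨0, hk⟩
        · subst hi
          simpa using hw
        · rw [Function.update_of_ne hi]
          exact hv i
  refine ⟨fun i => if h0 : i.val = 0 then v else
    if h1 : i.val ≤ k then g' ⟨i.val - 1, by omega⟩ else z, ?_, ?_⟩
  · intro a b hab
    have ha := a.isLt
    have hb := b.isLt
    simp only at hab
    split_ifs at hab with h1 h2 h3 h4 h5 h6 h7 h8
    · exact Fin.ext (by omega)
    · exact absurd (hab ▸ hv' _) (F.irrefl)
    · exact absurd hab.symm hzv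
    · exact absurd (hab ▸ hv' _) (F.irrefl)
    · have := hg' hab
      rw [Fin.mk.injEq] at this
      exact Fin.ext (by omega)
    · exact absurd (hab ▸ hv' _) hvz
    · exact absurd hab hzv
    · exact absurd (hab ▸ hv' _) hvz
    · exact Fin.ext (by omega)
  · have key : ∀ a b : Fin (k + 2), a ≠ b →
        ((a.val = 0 ∧ b.val ≤ k) ∨ (a.val = 1 ∧ b.val = k + 1)) →
        F.Adj (if h0 : a.val = 0 then v else
          if h1 : a.val ≤ k then g' ⟨a.val - 1, by omega⟩ else z)
          (if h0 : b.val = 0 then v else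
          if h1 : b.val ≤ k then g' ⟨b.val - 1, by omega⟩ else z) := by
      intro a b hne h
      rcases h with ⟨h1, h2⟩ | ⟨h1, h2⟩
      · have hb : b.val ≠ 0 := fun h => hne (Fin.ext (by omega))
        rw [dif_pos h1, dif_neg hb, dif_pos h2]
        exact hv' _
      · rw [dif_neg (by omega), dif_pos (by omega), dif_neg (by omega), dif_neg (by omega)]
        have : (⟨a.val - 1, by omega⟩ : Fin k) = ⟨0, hk⟩ := Fin.ext (by simp [h1])
        rw [this, hw']
        exact hz
    intro a b hab
    rw [spur, SimpleGraph.fromRel_adj] at hab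
    obtain ⟨hne, h | h⟩ := hab
    · exact key a b hne h
    · exact (key b a hne.symm h).symm

theorem star_sub_spur (k : ℕ) : Sub (star k) (spur k) := by
  refine ⟨fun i => ⟨i.val, by omega⟩, fun a b h => by simpa [Fin.ext_iff] using h, ?_⟩
  intro a b hab
  rw [star, SimpleGraph.fromRel_adj] at hab
  rw [spur, SimpleGraph.fromRel_adj]
  obtain ⟨hne, h⟩ := hab
  refine ⟨fun h' => hne (Fin.ext (by simpa using h')), ?_⟩
  rcases h with h | h
  · subst h
    exact Or.inl (Or.inl ⟨rfl, by simp; omega⟩)
  · subst h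
    exact Or.inr (Or.inl ⟨rfl, by simp; omega⟩)

theorem arrow_spur_iff {B : Type} (H : SimpleGraph B) {k n : ℕ} (hk : 1 ≤ k) (hn : 4 ≤ n) :
    Arrow (spur k) H n ↔ Arrow (star k) H n := by
  constructor
  · intro h V _ F hV hF hF'
    rcases h V F hV hF hF' with h1 | h1
    · exact Or.inl ((star_sub_spur k).trans h1)
    · exact Or.inr h1
  · intro h V _ F hV hF hF'
    rcases h V F hV hF hF' with h1 | h1
    · exact Or.inl (spur_of_star F hF hF' (by omega) hk h1)
    · exact Or.inr h1

theorem cr_spur {B : Type} (H : SimpleGraph B) {k : ℕ} (hk : 1 ≤ k) :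
    cr (spur k) H = cr (star k) H := by
  unfold cr
  congr 1
  ext n
  simp only [Set.mem_ofPred_eq]
  constructor
  · rintro ⟨h1, h2⟩
    exact ⟨h1, (arrow_spur_iff H hk h1).1 h2⟩
  · rintro ⟨h1, h2⟩
    exact ⟨h1, (arrow_spur_iff H hk h1).2 h2⟩

theorem Arrow.mono {A B : Type} {G : SimpleGraph A} {H : SimpleGraph B} {m n : ℕ}
    (h : Arrow G H m) (hmn : m ≤ n) : Arrow G H n :=
  fun V _ F hV hF hF' => h V F (hmn.trans hV) hF hF'

theorem cr_eq {A B : Type} {G : SimpleGraph A} {H : SimpleGraph B} {m : ℕ} (h4 : 4 ≤ m)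
    (h1 : Arrow G H m) (h2 : ∀ n, 4 ≤ n → n < m → ¬ Arrow G H n) : cr G H = m := by
  unfold cr
  apply le_antisymm
  · exact Nat.sInf_le ⟨h4, h1⟩
  · refine le_csInf ⟨m, h4, h1⟩ ?_
    rintro n ⟨hn, hn'⟩
    by_contra hlt
    exact h2 n hn (by omega) hn'

/-- the small cases -/
theorem cr_small {k n : ℕ} (h : k ≤ 2 ∨ n ≤ 2) : cr (star k) (⊤ : SimpleGraph (Fin n)) = 4 := by
  classical
  refine cr_eq le_rfl ?_ (fun m h1 h2 => absurd h1 (by omega))
  intro V _ F hV hF hF'
  obtain ⟨x, y, hxy⟩ := two_of_card (show 2 ≤ Fintype.card V by omega)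
  rcases h with h | h
  · left
    obtain ⟨w, z, hw, hz, hzv, hvz⟩ := far F hF hF' ⟨x, y, hxy⟩ x
    refine sub_star F k w (fun i => if i.val = 0 then x else z) ?_ ?_
    · intro a b hab
      have ha := a.isLt
      have hb := b.isLt
      simp only at hab
      split_ifs at hab with h1 h2 h3
      · exact Fin.ext (by omega)
      · exact absurd hab.symm hzv
      · exact absurd hab hzv
      · exact Fin.ext (by omega)
    · intro i
      split_ifs
      · exact hw.symm
      · exact hz
  · right
    have h2 := hF'.preconnected x y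
    rw [SimpleGraph.reachable_iff_reflTransGen] at h2
    rcases Relation.ReflTransGen.cases_head h2 with h3 | ⟨c, h3, _⟩
    · exact absurd h3 hxy
    · refine ⟨fun i => if i.val = 0 then x else c, ?_, ?_⟩
      · intro a b hab
        have ha := a.isLt
        have hb := b.isLt
        simp only at hab
        split_ifs at hab with h4 h5 h6
        · exact Fin.ext (by omega)
        · exact absurd hab h3.ne
        · exact absurd hab.symm h3.ne
        · exact Fin.ext (by omega)
      · intro a b hab
        have ha := a.isLt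
        have hb := b.isLt
        have hne : a.val ≠ b.val := fun h => hab (Fin.ext h)
        beta_reduce
        split_ifs with h4 h5 h6
        · omega
        · exact h3
        · exact h3.symm
        · omega

end Pool.Agent.U107.CR
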