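import Pool.Agent.U107.CR.A
import Pool.Agent.U369.HY.Brooks

/-!
# Connected Ramsey numbers of stars versus complete graphs: degree at least four
-/

set_option autoImplicit false

namespace Pool.Agent.U107.CR

/-- if there is no star with `k` edges then all degrees are below `k` -/
theorem deg_lt {V : Type} [Fintype V] (F : SimpleGraph V) {k : ℕ} (hk : 1 ≤ k)
    (h : ¬ Sub (star k) F) (v : V) : Pool.Q6.CI.dg F v ≤ k - 1 := by
  classical
  by_contra hlt
  push Not at hlt
  apply h
  unfold Pool.Q6.CI.dg at hlt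
  obtain ⟨t, ht, htc⟩ := Finset.exists_subset_card_eq (Nat.le_of_pred_lt hlt)
  let e : Fin k ≃ t := (Finset.equivFinOfCardEq htc).symm
  refine sub_star F k v (fun i => (e i : V)) (fun a b hab => e.injective (Subtype.ext hab)) ?_
  intro i
  have := ht (e i).2
  simpa using this

/-- a proper colouring with few colours gives a large independent set -/
theorem indep_of_col {V : Type} [Fintype V] (F : SimpleGraph V) {D n : ℕ} (c : V → Fin D)
    (hc : ∀ x y, F.Adj x y → c x ≠ c y) (hn : 1 ≤ n) (hcard : D * (n - 1) < Fintype.card V) :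
    Sub (⊤ : SimpleGraph (Fin n)) Fᶜ := by
  classical
  obtain ⟨i, hi⟩ := Fintype.exists_lt_card_fiber_of_mul_lt_card (f := c) (n := n - 1)
    (by simpa using hcard)
  obtain ⟨t, ht, htc⟩ := Finset.exists_subset_card_eq (Nat.le_of_pred_lt hi)
  let e : Fin n ≃ t := (Finset.equivFinOfCardEq htc).symm
  refine ⟨fun i => (e i : V), fun a b hab => e.injective (Subtype.ext hab), ?_⟩
  intro a b hab
  have hne : (e a : V) ≠ e b := fun h => hab (e.injective (Subtype.ext h))
  rw [SimpleGraph.compl_adj]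
  refine ⟨hne, fun hadj => hc _ _ hadj ?_⟩
  have h1 := ht (e a).2
  have h2 := ht (e b).2
  simp only [Finset.mem_filter, Finset.mem_univ, true_and] at h1 h2
  rw [h1, h2]

/-- a connected graph of maximum degree `D` with more than `D+1` vertices has no `K_(D+1)` -/
theorem cliqueFree_of_deg {V : Type} [Fintype V] (F : SimpleGraph V) (hF : F.Connected) {D : ℕ}
    (hd : ∀ v, Pool.Q6.CI.dg F v ≤ D) (hcard : D + 1 < Fintype.card V) :
    F.CliqueFree (D + 1) := by
  classical
  intro s hs
  obtain ⟨u, hu⟩ : s.Nonempty := by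
    rw [← Finset.card_pos, hs.2]; omega
  -- `s` is closed under adjacency
  have hcl : ∀ x ∈ s, ∀ y, F.Adj x y → y ∈ s := by
    intro x hx y hxy
    by_contra hy
    have h1 : insert y (s.erase x) ⊆ Finset.univ.filter fun w => F.Adj x w := by
      intro z hz
      rw [Finset.mem_filter]
      refine ⟨Finset.mem_univ _, ?_⟩
      rcases Finset.mem_insert.1 hz with rfl | hz
      · exact hxy
      · exact hs.1 hx (Finset.mem_of_mem_erase hz) (Finset.ne_of_mem_erase hz).symm
    have h2 := Finset.card_le_card h1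
    rw [Finset.card_insert_of_notMem (fun h => hy (Finset.mem_of_mem_erase h)),
      Finset.card_erase_of_mem hx, hs.2] at h2
    have h3 := hd x
    unfold Pool.Q6.CI.dg at h3
    omega
  have hall : ∀ y, F.Reachable u y → y ∈ s := by
    intro y hy
    rw [SimpleGraph.reachable_iff_reflTransGen] at hy
    induction hy with
    | refl => exact hu
    | @tail b c _ h2 ih => exact hcl b ih c h2
  have : s = Finset.univ := Finset.eq_univ_of_forall fun y => hall y (hF.preconnected u y)
  have h4 := hs.2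
  rw [this, Finset.card_univ] at h4
  omega

theorem arrow_upper {k n : ℕ} (hk : 4 ≤ k) (hn : 3 ≤ n) :
    Arrow (star k) (⊤ : SimpleGraph (Fin n)) ((k - 1) * (n - 1) + 1) := by
  classical
  intro V _ F hV hF _
  by_cases h : Sub (star k) F
  · exact Or.inl h
  · right
    have hd := deg_lt F (by omega) h
    have h2 : (k - 1) * 2 ≤ (k - 1) * (n - 1) := Nat.mul_le_mul_left _ (by omega)
    obtain ⟨c, hc⟩ := Pool.Agent.U369.HY.Br.brooks F (D := k - 1) (by omega) hd
      (cliqueFree_of_deg F hF hd (by omega))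
    exact indep_of_col F c hc (by omega) (by omega)

/-- the chain of `m` cliques with `d` vertices -/
def chain (m d : ℕ) : SimpleGraph (Fin m × Fin d) :=
  SimpleGraph.fromRel fun x y => x.1 = y.1 ∨
    (x.1.val + 1 = y.1.val ∧ x.2.val = 1 ∧ y.2.val = 0)

theorem chain_adj (m d : ℕ) (x y : Fin m × Fin d) : (chain m d).Adj x y ↔
    x ≠ y ∧ (x.1 = y.1 ∨ (x.1.val + 1 = y.1.val ∧ x.2.val = 1 ∧ y.2.val = 0) ∨
      (y.1.val + 1 = x.1.val ∧ y.2.val = 1 ∧ x.2.val = 0)) := by
  rw [chain, SimpleGraph.fromRel_adj]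
  constructor
  · rintro ⟨h1, (h2 | h2) | (h2 | h2)⟩
    · exact ⟨h1, Or.inl h2⟩
    · exact ⟨h1, Or.inr (Or.inl h2)⟩
    · exact ⟨h1, Or.inl h2.symm⟩
    · exact ⟨h1, Or.inr (Or.inr h2)⟩
  · rintro ⟨h1, h2 | h2 | h2⟩
    · exact ⟨h1, Or.inl (Or.inl h2)⟩
    · exact ⟨h1, Or.inl (Or.inr h2)⟩
    · exact ⟨h1, Or.inr (Or.inr h2)⟩

theorem chain_no_star (m d : ℕ) (hd : 1 ≤ d) : ¬ Sub (star (d + 1)) (chain m d) := by
  classical
  intro h
  obtain ⟨v, g, hg, hv⟩ := star_sub h
  -- inject the neighbours of `v` into `Fin d`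
  let φ : Fin m × Fin d → Fin d := fun y => if y.1 = v.1 then y.2 else v.2
  have hinj : Function.Injective fun i => φ (g i) := by
    intro i j hij
    have hi := (chain_adj m d _ _).1 (hv i)
    have hj := (chain_adj m d _ _).1 (hv j)
    apply hg
    simp only [φ] at hij
    obtain ⟨hi1, hi2⟩ := hi
    obtain ⟨hj1, hj2⟩ := hj
    split_ifs at hij with h1 h2 h3
    · exact Prod.ext (h1.trans h2.symm) hij
    · exact absurd (Prod.ext h1 hij) hi1.symm
    · exact absurd (Prod.ext h3 hij.symm) hj1.symm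
    · rcases hi2 with hi2 | hi2 | hi2
      · exact absurd hi2.symm h1
      · rcases hj2 with hj2 | hj2 | hj2
        · exact absurd hj2.symm h3
        · exact Prod.ext (Fin.ext (by omega)) (Fin.ext (by omega))
        · omega
      · rcases hj2 with hj2 | hj2 | hj2
        · exact absurd hj2.symm h3
        · omega
        · exact Prod.ext (Fin.ext (by omega)) (Fin.ext (by omega))
  have := Fintype.card_le_of_injective _ hinj
  simp at this

theorem chain_no_indep (m d n : ℕ) (hn : m < n) :
    ¬ Sub (⊤ : SimpleGraph (Fin n)) (chain m d)ᶜ := by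
  classical
  rintro ⟨f, hf, hf'⟩
  have hinj : Function.Injective fun i => (f i).1 := by
    intro i j hij
    by_contra hne
    have h1 := hf' i j hne
    rw [SimpleGraph.compl_adj] at h1
    exact h1.2 ((chain_adj m d _ _).2 ⟨h1.1, Or.inl hij⟩)
  have := Fintype.card_le_of_injective _ hinj
  simp at this
  omega

theorem chain_conn (m d : ℕ) (hm : 1 ≤ m) (hd : 2 ≤ d) : (chain m d).Connected := by
  classical
  have : Nonempty (Fin m × Fin d) := ⟨(⟨0, hm⟩, ⟨0, by omega⟩)⟩
  have key : ∀ (i : ℕ) (hi : i < m) (a : Fin d),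
      (chain m d).Reachable (⟨0, hm⟩, ⟨0, by omega⟩) (⟨i, hi⟩, a) := by
    intro i
    induction i with
    | zero =>
      intro hi a
      by_cases ha : a = ⟨0, by omega⟩
      · subst ha; exact SimpleGraph.Reachable.refl _
      · refine SimpleGraph.Adj.reachable ((chain_adj m d _ _).2 ⟨?_, Or.inl rfl⟩)
        intro h
        exact ha (Prod.ext_iff.1 h).2.symm
    | succ i ih =>
      intro hi a
      have h1 := ih (by omega) ⟨1, by omega⟩
      have h2 : (chain m d).Adj (⟨i, by omega⟩, ⟨1, by omega⟩) (⟨i + 1, hi⟩, ⟨0, by omega⟩) := by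
        refine (chain_adj m d _ _).2 ⟨?_, Or.inr (Or.inl ⟨rfl, rfl, rfl⟩)⟩
        intro h
        have := (Prod.ext_iff.1 h).1
        simp at this
      have h3 := h1.trans h2.reachable
      by_cases ha : a = ⟨0, by omega⟩
      · subst ha; exact h3
      · refine h3.trans (SimpleGraph.Adj.reachable ((chain_adj m d _ _).2 ⟨?_, Or.inl rfl⟩))
        intro h
        exact ha (Prod.ext_iff.1 h).2.symm
  constructor
  intro x y
  exact (key x.1.val x.1.isLt x.2).symm.trans (key y.1.val y.1.isLt y.2)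

theorem chain_compl_conn (m d : ℕ) (hm : 2 ≤ m) (hd : 3 ≤ d) : (chain m d)ᶜ.Connected := by
  classical
  have : Nonempty (Fin m × Fin d) := ⟨(⟨0, by omega⟩, ⟨0, by omega⟩)⟩
  have h0 : ∀ x : Fin m × Fin d, x.1.val ≠ 0 →
      (chain m d)ᶜ.Adj (⟨0, by omega⟩, ⟨2, by omega⟩) x := by
    intro x hx
    rw [SimpleGraph.compl_adj, chain_adj]
    refine ⟨?_, ?_⟩
    · intro h
      apply hx
      rw [← h]
    · rintro ⟨_, h | h | h⟩
      · apply hx
        rw [← h]
      · simp at h
      · simp at h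
  have h1 : ∀ x : Fin m × Fin d, x.1.val = 0 →
      (chain m d)ᶜ.Adj (⟨1, by omega⟩, ⟨2, by omega⟩) x := by
    intro x hx
    rw [SimpleGraph.compl_adj, chain_adj]
    refine ⟨?_, ?_⟩
    · intro h
      rw [← h] at hx
      simp at hx
    · rintro ⟨_, h | h | h⟩
      · rw [← h] at hx
        simp at hx
      · simp at h
      · simp at h
  have key : ∀ x, (chain m d)ᶜ.Reachable (⟨0, by omega⟩, ⟨2, by omega⟩) x := by
    intro x
    by_cases hx : x.1.val = 0
    · exact (h0 (⟨1, by omega⟩, ⟨2, by omega⟩) (by simp)).reachable.trans (h1 x hx).reachable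
    · exact (h0 x hx).reachable
  constructor
  intro x y
  exact (key x).symm.trans (key y)

/-- lower bound for every graph with a vertex of degree at least `k` -/
theorem not_arrow {A : Type} {G : SimpleGraph A} {k n : ℕ} (hk : 4 ≤ k) (hn : 3 ≤ n)
    (hG : Sub (star k) G) : ¬ Arrow G (⊤ : SimpleGraph (Fin n)) ((k - 1) * (n - 1)) := by
  intro h
  rcases h (Fin (n - 1) × Fin (k - 1)) (chain (n - 1) (k - 1))
    (by simp [mul_comm]) (chain_conn _ _ (by omega) (by omega))
    (chain_compl_conn _ _ (by omega) (by omega)) with h1 | h1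
  · have h2 := hG.trans h1
    have h3 := chain_no_star (n - 1) (k - 1) (by omega)
    rw [show k - 1 + 1 = k by omega] at h3
    exact h3 h2
  · exact chain_no_indep (n - 1) (k - 1) n (by omega) h1

theorem Sub.refl {A : Type} (G : SimpleGraph A) : Sub G G :=
  ⟨fun a => a, fun _ _ h => h, fun _ _ h => h⟩

theorem cr_star {k n : ℕ} (hk : 4 ≤ k) (hn : 3 ≤ n) :
    cr (star k) (⊤ : SimpleGraph (Fin n)) = (k - 1) * (n - 1) + 1 := by
  have h2 : 3 * 2 ≤ (k - 1) * (n - 1) := Nat.mul_le_mul (by omega) (by omega)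
  refine cr_eq (by omega) (arrow_upper hk hn) ?_
  intro m _ hm h
  exact not_arrow hk hn (Sub.refl _) (h.mono (by omega))

end Pool.Agent.U107.CR
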