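import Pool.Agent.U107.CR.B

/-!
# Connected Ramsey numbers: the claw versus complete graphs
-/

set_option autoImplicit false

namespace Pool.Agent.U107.CR

/-- a connected graph without a vertex with three neighbours on at least `2n` vertices has `n`
independent vertices -/
theorem claw_upper {n : ℕ} (hn : 1 ≤ n) :
    Arrow (star 3) (⊤ : SimpleGraph (Fin n)) (2 * n) := by
  classical
  intro V _ F hV hF _
  by_cases hs : Sub (star 3) F
  · exact Or.inl hs
  right
  haveI : Nonempty V := hF.nonempty
  have h3 : ∀ v a b c : V, F.Adj v a → F.Adj v b → F.Adj v c → a ≠ b → c = a ∨ c = b := by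
    intro v a b c ha hb hc hab
    by_contra hcon
    push Not at hcon
    apply hs
    refine sub_star F 3 v ![a, b, c] ?_ ?_
    · intro i j hij
      fin_cases i <;> fin_cases j <;> simp_all
    · intro i
      fin_cases i
      · exact ha
      · exact hb
      · exact hc
  obtain ⟨u, v, p, hp, hmax⟩ := SimpleGraph.Walk.exists_isPath_forall_isPath_length_le_length F
  have hinj := hp.getVert_injOn
  have hadj : ∀ i, i < p.length → F.Adj (p.getVert i) (p.getVert (i + 1)) :=
    fun i hi => p.adj_getVert_succ hi
  -- neighbours of interior vertices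
  have hint : ∀ i, 0 < i → i < p.length → ∀ y, F.Adj (p.getVert i) y →
      y = p.getVert (i - 1) ∨ y = p.getVert (i + 1) := by
    intro i h0 hi y hy
    have h4 := hadj (i - 1) (by omega)
    rw [show i - 1 + 1 = i by omega] at h4
    refine h3 _ _ _ y h4.symm (hadj i hi) hy ?_
    intro h5
    have := hinj (by simp; omega) (by simp; omega) h5
    omega
  have hcl : ∀ x ∈ p.support, ∀ y, F.Adj x y → y ∈ p.support := by
    intro x hx y hxy
    obtain ⟨i, hi, hil⟩ := SimpleGraph.Walk.mem_support_iff_exists_getVert.1 hx
    by_cases h0 : i = 0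
    · by_contra hy
      subst h0
      rw [SimpleGraph.Walk.getVert_zero] at hi
      subst hi
      have hpath : (SimpleGraph.Walk.cons hxy.symm p).IsPath := hp.cons hy
      have := hmax _ _ _ hpath
      simp at this
    by_cases h1 : i = p.length
    · by_contra hy
      subst h1
      rw [SimpleGraph.Walk.getVert_length] at hi
      subst hi
      have hy' : y ∉ p.reverse.support := by simpa using hy
      have hpath : (SimpleGraph.Walk.cons hxy.symm p.reverse).IsPath := hp.reverse.cons hy'
      have := hmax _ _ _ hpath
      simp at this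
    · rw [← hi] at hxy
      rcases hint i (by omega) (by omega) y hxy with h | h
      · rw [h]; exact p.getVert_mem_support _
      · rw [h]; exact p.getVert_mem_support _
  have hall : ∀ y, y ∈ p.support := by
    intro y
    have hy := hF.preconnected u y
    rw [SimpleGraph.reachable_iff_reflTransGen] at hy
    induction hy with
    | refl => exact p.start_mem_support
    | @tail b c _ h2 ih => exact hcl b ih c h2
  have hcard : Fintype.card V ≤ p.length + 1 := by
    have h5 : (Finset.univ : Finset V) ⊆ p.support.toFinset := fun y _ => by simpa using hall y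
    have h6 := Finset.card_le_card h5
    rw [Finset.card_univ] at h6
    refine h6.trans ((List.toFinset_card_le _).trans ?_)
    rw [SimpleGraph.Walk.length_support]
  have key : ∀ i j : Fin n, i < j → F.Adj (p.getVert (2 * i)) (p.getVert (2 * j)) → False := by
    intro i j hij had
    have h7 := i.isLt
    have h8 := j.isLt
    have h9 : i.val < j.val := hij
    rcases hint (2 * j) (by omega) (by omega) _ had.symm with h | h
    · have := hinj (by simp; omega) (by simp; omega) h
      omega
    · have := hinj (by simp; omega) (by simp; omega) h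
      omega
  refine ⟨fun i => p.getVert (2 * i), ?_, ?_⟩
  · intro i j hij
    have h7 := i.isLt
    have h8 := j.isLt
    have := hinj (by simp; omega) (by simp; omega) hij
    exact Fin.ext (by omega)
  · intro i j hij
    have hne : i ≠ j := hij
    rw [SimpleGraph.compl_adj]
    constructor
    · intro h
      have h7 := i.isLt
      have h8 := j.isLt
      have := hinj (by simp; omega) (by simp; omega) h
      exact hne (Fin.ext (by omega))
    · intro h
      rcases lt_or_gt_of_ne hne with h1 | h1
      · exact key i j h1 h
      · exact key j i h1 h.symm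

/-- the cycle with `M` vertices -/
def cyc (M : ℕ) : SimpleGraph (ZMod M) := SimpleGraph.fromRel fun x y => y = x + 1

theorem cyc_adj (M : ℕ) (x y : ZMod M) : (cyc M).Adj x y ↔ x ≠ y ∧ (y = x + 1 ∨ x = y + 1) := by
  rw [cyc, SimpleGraph.fromRel_adj]

theorem claw_lower {n : ℕ} (hn : 3 ≤ n) :
    ¬ Arrow (star 3) (⊤ : SimpleGraph (Fin n)) (2 * n - 1) := by
  classical
  intro h
  obtain ⟨m, rfl⟩ : ∃ m, n = m + 3 := ⟨n - 3, by omega⟩
  have hM : 2 * (m + 3) - 1 = 2 * m + 5 := by omega
  rw [hM] at h
  haveI : NeZero (2 * m + 5) := ⟨by omega⟩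
  have hval : ∀ a : ℕ, a < 2 * m + 5 → 0 < a → (a : ZMod (2 * m + 5)) ≠ 0 := by
    intro a ha h0 h1
    rw [ZMod.natCast_eq_zero_iff] at h1
    have := Nat.le_of_dvd h0 h1
    omega
  have hstep : ∀ x : ZMod (2 * m + 5), (cyc (2 * m + 5)).Adj x (x + 1) := by
    intro x
    refine (cyc_adj _ _ _).2 ⟨?_, Or.inl rfl⟩
    intro h1
    have h2 : ((1 : ℕ) : ZMod (2 * m + 5)) = 0 := by
      have : x + 1 = x + 0 := by rw [add_zero]; exact h1.symm
      simpa using add_left_cancel this
    exact hval 1 (by omega) (by omega) h2
  have hstep2 : ∀ x : ZMod (2 * m + 5), (cyc (2 * m + 5))ᶜ.Adj x (x + 2) := by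
    intro x
    rw [SimpleGraph.compl_adj, cyc_adj]
    constructor
    · intro h1
      have h2 : ((2 : ℕ) : ZMod (2 * m + 5)) = 0 := by
        have : x + 2 = x + 0 := by rw [add_zero]; exact h1.symm
        simpa using add_left_cancel this
      exact hval 2 (by omega) (by omega) h2
    · rintro ⟨_, h1 | h1⟩
      · have h2 : ((1 : ℕ) : ZMod (2 * m + 5)) = 0 := by
          have : x + 1 + 1 = x + 1 + 0 := by linear_combination h1
          simpa using add_left_cancel this
        exact hval 1 (by omega) (by omega) h2
      · have h2 : ((3 : ℕ) : ZMod (2 * m + 5)) = 0 := by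
          have : x + 3 = x + 0 := by rw [add_zero]; nth_rewrite 2 [h1]; ring
          simpa using add_left_cancel this
        exact hval 3 (by omega) (by omega) h2
  have hconn : (cyc (2 * m + 5)).Connected := by
    haveI : Nonempty (ZMod (2 * m + 5)) := ⟨0⟩
    have key : ∀ i : ℕ, (cyc (2 * m + 5)).Reachable 0 (i : ZMod (2 * m + 5)) := by
      intro i
      induction i with
      | zero => simp
      | succ i ih =>
        have := (hstep (i : ZMod (2 * m + 5))).reachable
        push_cast
        exact ih.trans this
    constructor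
    intro x y
    rw [← ZMod.natCast_zmod_val x, ← ZMod.natCast_zmod_val y]
    exact (key _).symm.trans (key _)
  have hconn2 : (cyc (2 * m + 5))ᶜ.Connected := by
    haveI : Nonempty (ZMod (2 * m + 5)) := ⟨0⟩
    have key : ∀ i : ℕ, (cyc (2 * m + 5))ᶜ.Reachable 0 ((2 * i : ℕ) : ZMod (2 * m + 5)) := by
      intro i
      induction i with
      | zero => simp
      | succ i ih =>
        have h1 := (hstep2 ((2 * i : ℕ) : ZMod (2 * m + 5))).reachable
        have h2 : ((2 * (i + 1) : ℕ) : ZMod (2 * m + 5)) = ((2 * i : ℕ) : ZMod (2 * m + 5)) + 2 := by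
          push_cast; ring
        rw [h2]
        exact ih.trans h1
    have key2 : ∀ x : ZMod (2 * m + 5), (cyc (2 * m + 5))ᶜ.Reachable 0 x := by
      intro x
      have h1 := key ((m + 3) * x.val)
      have h2 : ((2 * ((m + 3) * x.val) : ℕ) : ZMod (2 * m + 5)) = x := by
        have h3 : 2 * ((m + 3) * x.val) = (2 * m + 5) * x.val + x.val := by ring
        rw [h3]
        push_cast
        have h4 : ((2 * m + 5 : ℕ) : ZMod (2 * m + 5)) = 0 := ZMod.natCast_self _
        push_cast at h4
        rw [h4, zero_mul, zero_add, ZMod.natCast_zmod_val]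
      rwa [h2] at h1
    constructor
    intro x y
    exact (key2 x).symm.trans (key2 y)
  rcases h (ZMod (2 * m + 5)) (cyc (2 * m + 5)) (by rw [ZMod.card]) hconn hconn2 with h1 | h1
  · obtain ⟨v, g, hg, hv⟩ := star_sub h1
    have h2 : ∀ i, g i = v + 1 ∨ g i = v - 1 := by
      intro i
      rcases ((cyc_adj _ _ _).1 (hv i)).2 with h | h
      · exact Or.inl h
      · exact Or.inr (by rw [h]; ring)
    have h01 : g 0 ≠ g 1 := fun h => absurd (hg h) (by decide)
    have h02 : g 0 ≠ g 2 := fun h => absurd (hg h) (by decide)
    have h12 : g 1 ≠ g 2 := fun h => absurd (hg h) (by decide)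
    rcases h2 0 with a | a <;> rcases h2 1 with b | b <;> rcases h2 2 with c | c <;>
      simp_all
  · obtain ⟨f, hf, hf'⟩ := h1
    -- the images of `f` and `f + 1` are disjoint
    have hdis : Function.Injective (Sum.elim f (fun i => f i + 1)) := by
      refine Function.Injective.sumElim hf (fun i j hij => hf (add_right_cancel hij)) ?_
      intro i j hij
      by_cases hne : i = j
      · subst hne
        exact (hstep (f i)).ne hij
      · have h2 := hf' i j hne
        rw [SimpleGraph.compl_adj, cyc_adj] at h2
        exact h2.2 ⟨h2.1, Or.inr hij⟩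
    have := Fintype.card_le_of_injective _ hdis
    rw [Fintype.card_sum, Fintype.card_fin, ZMod.card] at this
    omega

theorem cr_claw {n : ℕ} (hn : 3 ≤ n) :
    cr (star 3) (⊤ : SimpleGraph (Fin n)) = 2 * n := by
  refine cr_eq (by omega) (claw_upper (by omega)) ?_
  intro m _ hm h
  exact claw_lower hn (h.mono (by omega))

end Pool.Agent.U107.CR
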