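import Pool.Agent.U107.CR.B

/-!
# Connected Ramsey numbers of trees versus complete graphs: an upper bound for all trees
-/

set_option autoImplicit false

namespace Pool.Agent.U107.CR

/-- greedy embedding of a tree into a set of large minimum degree with a marked vertex of
larger degree -/
theorem embed {A V : Type} [Fintype A] (T : SimpleGraph A) (hT : T.IsTree) (l p : A)
    (hlp : T.Adj l p) (hleaf : ∀ x, T.Adj l x → x = p) (F : SimpleGraph V) (W : Finset V) (v0 : V)
    (hv0 : v0 ∈ W) [DecidableRel F.Adj]
    (hmin : ∀ x ∈ W, Fintype.card A - 2 ≤ (W.filter fun w => F.Adj x w).card)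
    (hdeg : Fintype.card A - 1 ≤ (W.filter fun w => F.Adj v0 w).card) : Sub T F := by
  classical
  have hA2 : 2 ≤ Fintype.card A := by
    have : 1 < Fintype.card A := Fintype.one_lt_card_iff.2 ⟨l, p, hlp.ne⟩
    omega
  let P : Finset A → Prop := fun S => p ∈ S ∧ l ∉ S ∧
    (∀ a ∈ S, ∃ w : T.Walk p a, ∀ c ∈ w.support, c ∈ S) ∧
    ∃ f : A → V, Set.InjOn f S ∧ f p = v0 ∧ (∀ a ∈ S, f a ∈ W) ∧
      ∀ a ∈ S, ∀ b ∈ S, T.Adj a b → F.Adj (f a) (f b)
  have hP0 : P {p} := by
    refine ⟨by simp, by simpa using hlp.ne, ?_, fun _ => v0, by simp, rfl, fun _ _ => hv0, ?_⟩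
    · intro a ha
      rw [Finset.mem_singleton] at ha
      subst ha
      exact ⟨SimpleGraph.Walk.nil, by simp⟩
    · intro a ha b hb hab
      rw [Finset.mem_singleton] at ha hb
      subst ha; subst hb
      exact absurd hab T.irrefl
  -- a set of maximal size
  obtain ⟨S, hS, hSmax⟩ := (Finset.univ.filter fun S => P S).exists_max_image Finset.card
    ⟨{p}, by simpa using hP0⟩
  rw [Finset.mem_filter] at hS
  obtain ⟨hpS, hlS, hwalk, f, hinj, hfp, hfW, hfadj⟩ := hS.2
  -- an auxiliary fact: a vertex outside `S` has at most one neighbour in `S`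
  have huniq : ∀ y, y ∉ S → ∀ x ∈ S, ∀ a ∈ S, T.Adj x y → T.Adj a y → a = x := by
    intro y hy x hx a ha hxy hay
    by_contra hne
    obtain ⟨w1, hw1⟩ := hwalk x hx
    obtain ⟨w2, hw2⟩ := hwalk a ha
    let w : T.Walk x a := w1.reverse.append w2
    have hw : ∀ c ∈ w.support, c ∈ S := by
      intro c hc
      rw [SimpleGraph.Walk.mem_support_append_iff, SimpleGraph.Walk.support_reverse,
        List.mem_reverse] at hc
      rcases hc with hc | hc
      · exact hw1 c hc
      · exact hw2 c hc
    let q : T.Walk x a := SimpleGraph.Walk.cons hxy (SimpleGraph.Walk.cons hay.symm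
      SimpleGraph.Walk.nil)
    have hq : q.IsPath := by
      simp only [q, SimpleGraph.Walk.cons_isPath_iff, SimpleGraph.Walk.support_cons,
        SimpleGraph.Walk.support_nil]
      refine ⟨⟨by simp, ?_⟩, ?_⟩
      · simpa using hay.ne'
      · simp only [List.mem_cons, List.not_mem_nil, or_false, not_or]
        exact ⟨hxy.ne, fun h => hne h.symm⟩
    have h1 := hT.2.path_unique ⟨q, hq⟩ w.toPath
    have h2 : y ∈ (w.toPath : T.Walk x a).support := by
      rw [← h1]
      simp [q]
    exact hy (hw y (SimpleGraph.Walk.support_toPath_subset w h2))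
  by_cases hall : ∀ y, y ≠ l → y ∈ S
  · -- everything except the leaf is embedded
    have hScard : S.card = Fintype.card A - 1 := by
      have : S = Finset.univ.erase l := by
        ext y
        rw [Finset.mem_erase]
        exact ⟨fun h => ⟨fun h' => hlS (h' ▸ h), Finset.mem_univ _⟩, fun h => hall y h.1⟩
      rw [this, Finset.card_erase_of_mem (Finset.mem_univ _), Finset.card_univ]
    obtain ⟨z, hz, hz'⟩ : ∃ z ∈ W.filter (fun w => F.Adj v0 w), z ∉ (S.erase p).image f := by
      apply Finset.exists_mem_notMem_of_card_lt_card
      refine lt_of_le_of_lt Finset.card_image_le ?_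
      rw [Finset.card_erase_of_mem hpS]
      omega
    rw [Finset.mem_filter] at hz
    have hzf : ∀ a, a ≠ l → f a ≠ z := by
      intro a ha h
      by_cases hap : a = p
      · subst hap
        rw [hfp] at h
        exact hz.2.ne h
      · exact hz' (Finset.mem_image.2 ⟨a, Finset.mem_erase.2 ⟨hap, hall a ha⟩, h⟩)
    refine ⟨Function.update f l z, ?_, ?_⟩
    · intro a b hab
      by_cases ha : a = l <;> by_cases hb : b = l
      · rw [ha, hb]
      · subst ha
        rw [Function.update_self, Function.update_of_ne hb] at hab
        exact absurd hab.symm (hzf b hb)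
      · subst hb
        rw [Function.update_self, Function.update_of_ne ha] at hab
        exact absurd hab (hzf a ha)
      · rw [Function.update_of_ne ha, Function.update_of_ne hb] at hab
        exact hinj (hall a ha) (hall b hb) hab
    · intro a b hab
      by_cases ha : a = l <;> by_cases hb : b = l
      · exact absurd (ha.trans hb.symm) hab.ne
      · subst ha
        rw [Function.update_self, Function.update_of_ne hb, hleaf b hab, hfp]
        exact hz.2.symm
      · subst hb
        rw [Function.update_self, Function.update_of_ne ha, hleaf a hab.symm, hfp]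
        exact hz.2
      · rw [Function.update_of_ne ha, Function.update_of_ne hb]
        exact hfadj a (hall a ha) b (hall b hb) hab
  · exfalso
    push Not at hall
    obtain ⟨y0, hy0l, hy0S⟩ := hall
    -- an edge leaving `S ∪ {l}`
    obtain ⟨x, y, hxS, hyS, hyl, hxy⟩ : ∃ x y, x ∈ S ∧ y ∉ S ∧ y ≠ l ∧ T.Adj x y := by
      by_contra hcon
      push Not at hcon
      have key : ∀ y, T.Reachable p y → y ∈ S ∨ y = l := by
        intro y hy
        rw [SimpleGraph.reachable_iff_reflTransGen] at hy
        induction hy with
        | refl => exact Or.inl hpS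
        | @tail b c _ h2 ih =>
          rcases ih with ih | ih
          · by_cases hc : c ∈ S
            · exact Or.inl hc
            · by_cases hcl : c = l
              · exact Or.inr hcl
              · exact absurd h2 (hcon b c ih hc hcl)
          · subst ih
            rw [hleaf c h2]
            exact Or.inl hpS
      rcases key y0 (hT.1.preconnected p y0) with h | h
      · exact hy0S h
      · exact hy0l h
    have hSle : S.card ≤ Fintype.card A - 2 := by
      have h1 : (insert y (insert l S)).card ≤ Fintype.card A := by
        rw [← Finset.card_univ]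
        exact Finset.card_le_card (Finset.subset_univ _)
      rw [Finset.card_insert_of_notMem, Finset.card_insert_of_notMem hlS] at h1
      · omega
      · rw [Finset.mem_insert, not_or]
        exact ⟨hyl, hyS⟩
    obtain ⟨z, hz, hz'⟩ : ∃ z ∈ W.filter (fun w => F.Adj (f x) w), z ∉ (S.erase x).image f := by
      apply Finset.exists_mem_notMem_of_card_lt_card
      refine lt_of_le_of_lt Finset.card_image_le ?_
      rw [Finset.card_erase_of_mem hxS]
      have h1 := hmin (f x) (hfW x hxS)
      have h2 : 0 < S.card := Finset.card_pos.2 ⟨x, hxS⟩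
      omega
    rw [Finset.mem_filter] at hz
    have hzf : ∀ a ∈ S, f a ≠ z := by
      intro a ha h
      by_cases hap : a = x
      · subst hap
        exact hz.2.ne h
      · exact hz' (Finset.mem_image.2 ⟨a, Finset.mem_erase.2 ⟨hap, ha⟩, h⟩)
    have hnew : P (insert y S) := by
      have hup : ∀ a ∈ S, Function.update f y z a = f a := by
        intro a ha
        have hne : a ≠ y := fun h => hyS (h ▸ ha)
        exact Function.update_of_ne hne _ _
      refine ⟨Finset.mem_insert_of_mem hpS, ?_, ?_, Function.update f y z, ?_, ?_, ?_, ?_⟩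
      · rw [Finset.mem_insert, not_or]
        exact ⟨fun h => hyl h.symm, hlS⟩
      · intro a ha
        rcases Finset.mem_insert.1 ha with rfl | ha
        · obtain ⟨w, hw⟩ := hwalk x hxS
          refine ⟨w.concat hxy, ?_⟩
          intro c hc
          rw [SimpleGraph.Walk.support_concat, List.mem_append] at hc
          rcases hc with hc | hc
          · exact Finset.mem_insert_of_mem (hw c hc)
          · rw [List.mem_singleton] at hc
            subst hc
            exact Finset.mem_insert_self _ _
        · obtain ⟨w, hw⟩ := hwalk a ha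
          exact ⟨w, fun c hc => Finset.mem_insert_of_mem (hw c hc)⟩
      · intro a ha b hb hab
        rcases Finset.mem_insert.1 (Finset.mem_coe.1 ha) with h1 | h1 <;>
          rcases Finset.mem_insert.1 (Finset.mem_coe.1 hb) with h2 | h2
        · rw [h1, h2]
        · subst h1
          rw [Function.update_self, hup b h2] at hab
          exact absurd hab.symm (hzf b h2)
        · subst h2
          rw [Function.update_self, hup a h1] at hab
          exact absurd hab (hzf a h1)
        · rw [hup a h1, hup b h2] at hab
          exact hinj h1 h2 hab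
      · rw [hup p hpS, hfp]
      · intro a ha
        rcases Finset.mem_insert.1 ha with rfl | ha
        · rw [Function.update_self]
          exact hz.1
        · rw [hup a ha]
          exact hfW a ha
      · intro a ha b hb hab
        rcases Finset.mem_insert.1 ha with h1 | h1 <;>
          rcases Finset.mem_insert.1 hb with h2 | h2
        · exact absurd (h1.trans h2.symm) hab.ne
        · subst h1
          rw [Function.update_self, hup b h2, huniq a hyS x hxS b h2 hxy hab.symm]
          exact hz.2.symm
        · subst h2
          rw [Function.update_self, hup a h1, huniq b hyS x hxS a h1 hxy hab]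
          exact hz.2
        · rw [hup a h1, hup b h2]
          exact hfadj a h1 b h2 hab
    have h3 := hSmax (insert y S) (by simpa using hnew)
    rw [Finset.card_insert_of_notMem hyS] at h3
    omega

/-- embedding of a tree into a clique with an edge leaving it -/
theorem embed_clique {A V : Type} [Fintype A] (T : SimpleGraph A) (l p : A)
    (hlp : T.Adj l p) (hleaf : ∀ x, T.Adj l x → x = p) (F : SimpleGraph V) (K : Finset V)
    (hK : F.IsNClique (Fintype.card A - 1) K) (u z : V) (hu : u ∈ K) (hz : z ∉ K)
    (huz : F.Adj u z) : Sub T F := by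
  classical
  have hc : Fintype.card {a : A // a ≠ l} = Fintype.card K := by
    rw [Fintype.card_subtype_compl, Fintype.card_subtype_eq, Fintype.card_coe, hK.2]
  let e0 : {a : A // a ≠ l} ≃ K := Fintype.equivOfCardEq hc
  let p' : {a : A // a ≠ l} := ⟨p, hlp.ne'⟩
  let e : {a : A // a ≠ l} ≃ K := e0.trans (Equiv.swap (e0 p') ⟨u, hu⟩)
  have hep : (e p' : V) = u := by simp [e]
  have hmem : ∀ a, (e a : V) ∈ K := fun a => (e a).2
  refine ⟨fun a => if h : a = l then z else (e ⟨a, h⟩ : V), ?_, ?_⟩
  · intro a b hab
    simp only at hab
    split_ifs at hab with h1 h2 h3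
    · rw [h1, h2]
    · exact absurd (hab ▸ hmem _) hz
    · exact absurd (hab ▸ hmem _) hz
    · have := e.injective (Subtype.ext hab)
      exact congrArg Subtype.val this
  · intro a b hab
    beta_reduce
    split_ifs with h1 h2 h3
    · exact absurd (h1.trans h2.symm) hab.ne
    · subst h1
      have hb := hleaf b hab
      subst hb
      rw [show (⟨b, h2⟩ : {x : A // x ≠ a}) = p' from rfl, hep]
      exact huz.symm
    · subst h3
      have hb := hleaf a hab.symm
      subst hb
      rw [show (⟨a, h1⟩ : {x : A // x ≠ b}) = p' from rfl, hep]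
      exact huz
    · refine hK.1 (hmem _) (hmem _) ?_
      intro h
      have := e.injective (Subtype.ext h)
      exact hab.ne (congrArg Subtype.val this)

theorem tree_upper {A : Type} [Fintype A] (T : SimpleGraph A) (hT : T.IsTree)
    (hm : 5 ≤ Fintype.card A) {n : ℕ} (hn : 3 ≤ n) :
    Arrow T (⊤ : SimpleGraph (Fin n)) ((Fintype.card A - 2) * (n - 1) + 1) := by
  classical
  intro V _ F hV hF _
  by_cases hind : Sub (⊤ : SimpleGraph (Fin n)) Fᶜ
  · exact Or.inr hind
  left
  haveI : Nontrivial A := Fintype.one_lt_card_iff_nontrivial.1 (by omega)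
  obtain ⟨l, hl⟩ := hT.exists_vert_degree_one_of_nontrivial
  obtain ⟨p, hlp, hleaf⟩ := SimpleGraph.degree_eq_one_iff_existsUnique_adj.1 hl
  set D := Fintype.card A - 2 with hD
  have h2 : D * 2 ≤ D * (n - 1) := Nat.mul_le_mul_left _ (by omega)
  let P : Finset V → Prop := fun W => ¬ ∃ c : V → Fin D, ∀ x ∈ W, ∀ y ∈ W, F.Adj x y → c x ≠ c y
  have hPuniv : P Finset.univ := by
    rintro ⟨c, hc⟩
    exact hind (indep_of_col F c (fun x y h => hc x (Finset.mem_univ _) y (Finset.mem_univ _) h)
      (by omega) (by omega))
  obtain ⟨W, hW, hWmin⟩ := (Finset.univ.filter fun W => P W).exists_min_image Finset.card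
    ⟨Finset.univ, by simpa using hPuniv⟩
  rw [Finset.mem_filter] at hW
  have hWP : P W := hW.2
  have hmin : ∀ x ∈ W, D ≤ (W.filter fun w => F.Adj x w).card := by
    intro x hx
    by_contra hlt
    push Not at hlt
    have h3 : ¬ P (W.erase x) := by
      intro h
      have h4 := hWmin (W.erase x) (by simpa using h)
      rw [Finset.card_erase_of_mem hx] at h4
      have : 0 < W.card := Finset.card_pos.2 ⟨x, hx⟩
      omega
    simp only [P, not_not] at h3
    obtain ⟨c, hc⟩ := h3
    obtain ⟨i, _, hi⟩ : ∃ i ∈ (Finset.univ : Finset (Fin D)),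
        i ∉ (W.filter fun w => F.Adj x w).image c := by
      apply Finset.exists_mem_notMem_of_card_lt_card
      refine lt_of_le_of_lt Finset.card_image_le ?_
      simpa using hlt
    apply hWP
    refine ⟨Function.update c x i, ?_⟩
    intro a ha b hb hab
    by_cases hax : a = x
    · subst hax
      rw [Function.update_self, Function.update_of_ne hab.ne']
      intro h
      exact hi (Finset.mem_image.2 ⟨b, Finset.mem_filter.2 ⟨hb, hab⟩, h.symm⟩)
    · by_cases hbx : b = x
      · subst hbx
        rw [Function.update_self, Function.update_of_ne hax]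
        intro h
        exact hi (Finset.mem_image.2 ⟨a, Finset.mem_filter.2 ⟨ha, hab.symm⟩, h⟩)
      · rw [Function.update_of_ne hax, Function.update_of_ne hbx]
        exact hc a (Finset.mem_erase.2 ⟨hax, ha⟩) b (Finset.mem_erase.2 ⟨hbx, hb⟩) hab
  by_cases hdeg : ∃ v0 ∈ W, Fintype.card A - 1 ≤ (W.filter fun w => F.Adj v0 w).card
  · obtain ⟨v0, hv0, hdeg⟩ := hdeg
    exact embed T hT l p hlp hleaf F W v0 hv0 hmin hdeg
  · push Not at hdeg
    -- Brooks on the induced graph
    let Γ : SimpleGraph W := F.induce (W : Set V)
    have hdg : ∀ x : W, Pool.Q6.CI.dg Γ x ≤ D := by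
      intro x
      unfold Pool.Q6.CI.dg
      have h4 := hdeg x x.2
      refine le_trans (Finset.card_le_card_of_injOn (t := W.filter fun w => F.Adj x w)
        (fun w : W => (w : V)) ?_ ?_) (by omega)
      · intro w hw
        have hw1 := (Finset.mem_filter.1 (Finset.mem_coe.1 hw)).2
        exact Finset.mem_coe.2 (Finset.mem_filter.2 ⟨w.2, hw1⟩)
      · intro a _ b _ h
        exact Subtype.ext h
    by_cases hcl : Γ.CliqueFree (D + 1)
    · exfalso
      obtain ⟨c, hc⟩ := Pool.Agent.U369.HY.Br.brooks Γ (D := D) (by omega) hdg hcl
      apply hWP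
      refine ⟨fun x => if h : x ∈ W then c ⟨x, h⟩ else ⟨0, by omega⟩, ?_⟩
      intro x hx y hy hxy
      beta_reduce
      rw [dif_pos hx, dif_pos hy]
      exact hc ⟨x, hx⟩ ⟨y, hy⟩ hxy
    · unfold SimpleGraph.CliqueFree at hcl
      push Not at hcl
      obtain ⟨s, hs⟩ := hcl
      let K : Finset V := s.map (Function.Embedding.subtype _)
      have hK : F.IsNClique (Fintype.card A - 1) K := by
        constructor
        · intro a ha b hb hne
          simp only [K, Finset.coe_map, Set.mem_image] at ha hb
          obtain ⟨a', ha', rfl⟩ := ha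
          obtain ⟨b', hb', rfl⟩ := hb
          exact hs.1 ha' hb' (fun h => hne (by rw [h]))
        · rw [Finset.card_map, hs.2]
          omega
      obtain ⟨u0, hu0⟩ : K.Nonempty := by
        rw [← Finset.card_pos, hK.2]
        omega
      by_contra hcon
      have hclosed : ∀ x ∈ K, ∀ y, F.Adj x y → y ∈ K := by
        intro x hx y hxy
        by_contra hy
        exact hcon (embed_clique T l p hlp hleaf F K hK x y hx hy hxy)
      have hall : ∀ y, F.Reachable u0 y → y ∈ K := by
        intro y hy
        rw [SimpleGraph.reachable_iff_reflTransGen] at hy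
        induction hy with
        | refl => exact hu0
        | @tail b c _ h2 ih => exact hclosed b ih c h2
      have h6 : K = Finset.univ := Finset.eq_univ_of_forall fun y => hall y (hF.preconnected u0 y)
      have h7 := hK.2
      rw [h6, Finset.card_univ] at h7
      omega

end Pool.Agent.U107.CR
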