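import Pool.Agent.U107.CR.D

/-!
# Connected Ramsey numbers of trees versus complete graphs: the hub construction
-/

set_option autoImplicit false

namespace Pool.Agent.U107.CR

/-- `m` disjoint cliques with `b` vertices and a hub which is adjacent to all their vertices but
the vertex `(0,0)` -/
def hub (m b : ℕ) : SimpleGraph (Option (Fin m × Fin b)) :=
  SimpleGraph.fromRel fun x y => ∃ q : Fin m × Fin b, y = some q ∧
    ((x = none ∧ ¬ (q.1.val = 0 ∧ q.2.val = 0)) ∨ ∃ p : Fin m × Fin b, x = some p ∧ p.1 = q.1)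

theorem hub_some (m b : ℕ) (p q : Fin m × Fin b) :
    (hub m b).Adj (some p) (some q) ↔ p ≠ q ∧ p.1 = q.1 := by
  rw [hub, SimpleGraph.fromRel_adj]
  constructor
  · rintro ⟨h1, h2⟩
    refine ⟨fun h => h1 (by rw [h]), ?_⟩
    rcases h2 with ⟨r, hr, h | ⟨s, hs, h⟩⟩ | ⟨r, hr, h | ⟨s, hs, h⟩⟩
    · exact absurd h.1 (by simp)
    · rw [Option.some_inj] at hr hs
      rw [hr, hs]; exact h
    · exact absurd h.1 (by simp)
    · rw [Option.some_inj] at hr hs
      rw [hr, hs]; exact h.symm
  · rintro ⟨h1, h2⟩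
    exact ⟨fun h => h1 (Option.some_inj.1 h), Or.inl ⟨q, rfl, Or.inr ⟨p, rfl, h2⟩⟩⟩

theorem hub_none (m b : ℕ) (q : Fin m × Fin b) :
    (hub m b).Adj none (some q) ↔ ¬ (q.1.val = 0 ∧ q.2.val = 0) := by
  rw [hub, SimpleGraph.fromRel_adj]
  constructor
  · rintro ⟨_, h2⟩
    rcases h2 with ⟨r, hr, h | ⟨s, hs, h⟩⟩ | ⟨r, hr, h | ⟨s, hs, h⟩⟩
    · rw [Option.some_inj] at hr
      rw [hr]; exact h.2
    · exact absurd hs (by simp)
    · exact absurd hr (by simp)
    · exact absurd hr (by simp)
  · intro h
    exact ⟨by simp, Or.inl ⟨q, rfl, Or.inl ⟨rfl, h⟩⟩⟩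

theorem hub_conn (m b : ℕ) (hm : 2 ≤ m) (hb : 2 ≤ b) : (hub m b).Connected := by
  classical
  have : Nonempty (Option (Fin m × Fin b)) := ⟨none⟩
  have key : ∀ x, (hub m b).Reachable none x := by
    intro x
    rcases x with _ | q
    · exact SimpleGraph.Reachable.refl _
    · by_cases hq : q.1.val = 0 ∧ q.2.val = 0
      · have h1 : (hub m b).Adj none (some (q.1, ⟨1, by omega⟩)) :=
          (hub_none m b _).2 (by simp)
        have h2 : (hub m b).Adj (some (q.1, ⟨1, by omega⟩)) (some q) := by
          refine (hub_some m b _ _).2 ⟨?_, rfl⟩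
          intro h
          have := congrArg (fun r : Fin m × Fin b => r.2.val) h
          simp only at this
          omega
        exact h1.reachable.trans h2.reachable
      · exact ((hub_none m b q).2 hq).reachable
  constructor
  intro x y
  exact (key x).symm.trans (key y)

theorem hub_compl_conn (m b : ℕ) (hm : 2 ≤ m) (hb : 2 ≤ b) : (hub m b)ᶜ.Connected := by
  classical
  have : Nonempty (Option (Fin m × Fin b)) := ⟨none⟩
  let z : Fin m × Fin b := (⟨0, by omega⟩, ⟨0, by omega⟩)
  let z' : Fin m × Fin b := (⟨1, by omega⟩, ⟨0, by omega⟩)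
  have hc : ∀ p q : Fin m × Fin b, p.1 ≠ q.1 → (hub m b)ᶜ.Adj (some p) (some q) := by
    intro p q h
    rw [SimpleGraph.compl_adj, hub_some]
    exact ⟨fun h' => h (by rw [Option.some_inj.1 h']), fun h' => h h'.2⟩
  have h0 : (hub m b)ᶜ.Adj none (some z) := by
    rw [SimpleGraph.compl_adj, hub_none]
    exact ⟨by simp, by simp [z]⟩
  have key : ∀ x, (hub m b)ᶜ.Reachable (some z) x := by
    intro x
    rcases x with _ | q
    · exact h0.symm.reachable
    · by_cases hq : q.1.val = 0
      · have h1 := hc z z' (by simp [z, z'])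
        have h2 := hc z' q (by
          intro h
          have := congrArg Fin.val h
          simp only [z'] at this
          omega)
        exact h1.reachable.trans h2.reachable
      · refine (hc z q ?_).reachable
        intro h
        have := congrArg Fin.val h
        simp only [z] at this
        omega
  constructor
  intro x y
  exact (key x).symm.trans (key y)

theorem hub_no_indep (m b n : ℕ) (hn : 3 ≤ n) (hmn : m < n) :
    ¬ Sub (⊤ : SimpleGraph (Fin n)) (hub m b)ᶜ := by
  classical
  rintro ⟨f, hf, hf'⟩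
  by_cases hnone : ∃ i, f i = none
  · obtain ⟨i, hi⟩ := hnone
    -- two further indices
    have h2 : ∀ j, j ≠ i → ∃ q : Fin m × Fin b, f j = some q ∧ q.1.val = 0 ∧ q.2.val = 0 := by
      intro j hj
      have h3 := hf' i j (fun h => hj h.symm)
      rw [hi] at h3
      cases hfj : f j with
      | none => exact absurd (hf (hfj.trans hi.symm)) hj
      | some q =>
        rw [hfj, SimpleGraph.compl_adj, hub_none] at h3
        exact ⟨q, rfl, not_not.1 h3.2⟩
    have hc : 2 ≤ (Finset.univ.erase i).card := by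
      rw [Finset.card_erase_of_mem (Finset.mem_univ _), Finset.card_univ, Fintype.card_fin]
      omega
    obtain ⟨j, hj, k, hk, hjk⟩ := Finset.one_lt_card.1 hc
    obtain ⟨q, hq, hq1, hq2⟩ := h2 j (Finset.ne_of_mem_erase hj)
    obtain ⟨r, hr, hr1, hr2⟩ := h2 k (Finset.ne_of_mem_erase hk)
    apply hjk
    apply hf
    rw [hq, hr, Option.some_inj]
    exact Prod.ext (Fin.ext (by omega)) (Fin.ext (by omega))
  · push Not at hnone
    have h1 : ∀ i, ∃ q, f i = some q := fun i => Option.ne_none_iff_exists'.1 (hnone i)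
    choose g hg using h1
    have hinj : Function.Injective fun i => (g i).1 := by
      intro i j hij
      by_contra hne
      have h2 := hf' i j hne
      rw [hg, hg, SimpleGraph.compl_adj, hub_some] at h2
      exact h2.2 ⟨fun h => h2.1 (by rw [h]), hij⟩
    have := Fintype.card_le_of_injective _ hinj
    simp at this
    omega

/-- for every vertex `x` of the tree some connected set of more than `b` vertices avoids `x` -/
def Heavy {A : Type} (T : SimpleGraph A) (b : ℕ) : Prop :=
  ∀ x : A, ∃ S : Finset A, x ∉ S ∧ b < S.card ∧ (T.induce (S : Set A)).Connected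

theorem hub_no_tree {A : Type} [Fintype A] (T : SimpleGraph A) (hA : Nonempty A) (m b : ℕ)
    (hb : Heavy T b) : ¬ Sub T (hub m b) := by
  classical
  rintro ⟨f, hf, hf'⟩
  -- choose a vertex, preferably the one at the hub
  obtain ⟨x, hx⟩ : ∃ x, ∀ y, y ≠ x → f y ≠ none := by
    by_cases h : ∃ x, f x = none
    · obtain ⟨x, hx⟩ := h
      exact ⟨x, fun y hy h' => hy (hf (h'.trans hx.symm))⟩
    · push Not at h
      exact ⟨hA.some, fun y _ => h y⟩
  obtain ⟨S, hxS, hS, hconn⟩ := hb x
  have h1 : ∀ a : S, ∃ q, f a = some q := fun a =>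
    Option.ne_none_iff_exists'.1 (hx a (fun h => hxS (h ▸ a.2)))
  choose g hg using h1
  obtain ⟨a0⟩ := hconn.nonempty
  have key : ∀ a : (S : Set A), (T.induce (S : Set A)).Reachable a0 a →
      (g ⟨a, a.2⟩).1 = (g ⟨a0, a0.2⟩).1 := by
    intro a ha
    rw [SimpleGraph.reachable_iff_reflTransGen] at ha
    induction ha with
    | refl => rfl
    | @tail c d _ h2 ih =>
      have h3 : T.Adj c d := h2
      have h4 := hf' _ _ h3
      have h5 := hg ⟨c, c.2⟩
      have h6 := hg ⟨d, d.2⟩
      simp only at h5 h6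
      rw [h5, h6, hub_some] at h4
      exact h4.2.symm.trans ih
  have hinj : Function.Injective fun a : S => (g a).2 := by
    intro a c hac
    have h2 := key ⟨a, a.2⟩ (hconn.preconnected _ _)
    have h3 := key ⟨c, c.2⟩ (hconn.preconnected _ _)
    apply Subtype.ext
    apply hf
    rw [hg a, hg c, Option.some_inj]
    exact Prod.ext (h2.trans h3.symm) hac
  have := Fintype.card_le_of_injective _ hinj
  simp at this
  omega

theorem not_arrow_hub {A : Type} [Fintype A] {T : SimpleGraph A} (hA : Nonempty A) {b n : ℕ}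
    (hb : 2 ≤ b) (hn : 3 ≤ n) (hT : Heavy T b) :
    ¬ Arrow T (⊤ : SimpleGraph (Fin n)) (b * (n - 1) + 1) := by
  intro h
  rcases h (Option (Fin (n - 1) × Fin b)) (hub (n - 1) b)
    (by simp [mul_comm]) (hub_conn _ _ (by omega) (by omega))
    (hub_compl_conn _ _ (by omega) (by omega)) with h1 | h1
  · exact hub_no_tree T hA _ _ hT h1
  · exact hub_no_indep (n - 1) b n hn (by omega) h1

end Pool.Agent.U107.CR
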