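import Pool.Agent.U107.CR.D

/-!
# Connected Ramsey numbers of trees versus the triangle: gaps in the sizes of the components
-/

set_option autoImplicit false

namespace Pool.Agent.U107.CR

/-- two cliques with `a` and `b` vertices and one edge between them -/
def two (a b : ℕ) : SimpleGraph (Fin a ⊕ Fin b) :=
  SimpleGraph.fromRel fun x y => (∃ i j, x = Sum.inl i ∧ y = Sum.inl j) ∨
    (∃ i j, x = Sum.inr i ∧ y = Sum.inr j) ∨
    (∃ i j, x = Sum.inl i ∧ y = Sum.inr j ∧ i.val = 0 ∧ j.val = 0)

theorem two_ll (a b : ℕ) (i j : Fin a) : (two a b).Adj (Sum.inl i) (Sum.inl j) ↔ i ≠ j := by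
  rw [two, SimpleGraph.fromRel_adj]
  constructor
  · rintro ⟨h, _⟩ h'
    exact h (by rw [h'])
  · intro h
    exact ⟨fun h' => h (Sum.inl_injective h'), Or.inl (Or.inl ⟨i, j, rfl, rfl⟩)⟩

theorem two_rr (a b : ℕ) (i j : Fin b) : (two a b).Adj (Sum.inr i) (Sum.inr j) ↔ i ≠ j := by
  rw [two, SimpleGraph.fromRel_adj]
  constructor
  · rintro ⟨h, _⟩ h'
    exact h (by rw [h'])
  · intro h
    exact ⟨fun h' => h (Sum.inr_injective h'), Or.inl (Or.inr (Or.inl ⟨i, j, rfl, rfl⟩))⟩

theorem two_lr (a b : ℕ) (i : Fin a) (j : Fin b) :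
    (two a b).Adj (Sum.inl i) (Sum.inr j) ↔ i.val = 0 ∧ j.val = 0 := by
  rw [two, SimpleGraph.fromRel_adj]
  constructor
  · rintro ⟨_, h⟩
    rcases h with (⟨p, q, _, h⟩ | ⟨p, q, h, _⟩ | ⟨p, q, h1, h2, h3⟩) |
      (⟨p, q, h, _⟩ | ⟨p, q, _, h⟩ | ⟨p, q, h, _⟩)
    · exact absurd h (by simp)
    · exact absurd h (by simp)
    · rw [Sum.inl_injective h1, Sum.inr_injective h2]
      exact h3
    · exact absurd h (by simp)
    · exact absurd h (by simp)
    · exact absurd h (by simp)
  · intro h
    exact ⟨by simp, Or.inl (Or.inr (Or.inr ⟨i, j, rfl, rfl, h⟩))⟩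

theorem two_conn (a b : ℕ) (ha : 2 ≤ a) (hb : 2 ≤ b) : (two a b).Connected := by
  classical
  have : Nonempty (Fin a ⊕ Fin b) := ⟨Sum.inl ⟨0, by omega⟩⟩
  have h0 : (two a b).Adj (Sum.inl ⟨0, by omega⟩) (Sum.inr ⟨0, by omega⟩) :=
    (two_lr a b _ _).2 ⟨rfl, rfl⟩
  have key : ∀ x, (two a b).Reachable (Sum.inl ⟨0, by omega⟩) x := by
    rintro (i | j)
    · by_cases h : (⟨0, by omega⟩ : Fin a) = i
      · rw [← h]
      · exact ((two_ll a b _ _).2 h).reachable
    · by_cases h : (⟨0, by omega⟩ : Fin b) = j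
      · rw [← h]; exact h0.reachable
      · exact h0.reachable.trans ((two_rr a b _ _).2 h).reachable
  constructor
  intro x y
  exact (key x).symm.trans (key y)

theorem two_compl_conn (a b : ℕ) (ha : 2 ≤ a) (hb : 2 ≤ b) : (two a b)ᶜ.Connected := by
  classical
  have : Nonempty (Fin a ⊕ Fin b) := ⟨Sum.inl ⟨0, by omega⟩⟩
  have h1 : ∀ j, (two a b)ᶜ.Adj (Sum.inl ⟨1, by omega⟩) (Sum.inr j) := by
    intro j
    rw [SimpleGraph.compl_adj, two_lr]
    exact ⟨by simp, by simp⟩
  have h2 : ∀ i, (two a b)ᶜ.Adj (Sum.inl i) (Sum.inr ⟨1, by omega⟩) := by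
    intro j
    rw [SimpleGraph.compl_adj, two_lr]
    exact ⟨by simp, by simp⟩
  have key : ∀ x, (two a b)ᶜ.Reachable (Sum.inl ⟨1, by omega⟩) x := by
    rintro (i | j)
    · exact (h1 ⟨1, by omega⟩).reachable.trans (h2 i).symm.reachable
    · exact (h1 j).reachable
  constructor
  intro x y
  exact (key x).symm.trans (key y)

theorem two_no_indep (a b : ℕ) : ¬ Sub (⊤ : SimpleGraph (Fin 3)) (two a b)ᶜ := by
  classical
  rintro ⟨f, hf, hf'⟩
  have hinj : Function.Injective fun i => (f i).isLeft := by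
    intro i j hij
    by_contra hne
    have h2 := hf' i j hne
    rw [SimpleGraph.compl_adj] at h2
    cases hi : f i with
    | inl p =>
      cases hj : f j with
      | inl q =>
        rw [hi, hj, two_ll] at h2
        exact h2.2 (fun h => h2.1 (by rw [h]))
      | inr q => simp [hi, hj] at hij
    | inr p =>
      cases hj : f j with
      | inl q => simp [hi, hj] at hij
      | inr q =>
        rw [hi, hj, two_rr] at h2
        exact h2.2 (fun h => h2.1 (by rw [h]))
  have := Fintype.card_le_of_injective _ hinj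
  simp at this

/-- exactly one edge of `T` leaves the set `S` -/
def OneEdge {A : Type} (T : SimpleGraph A) (S : Finset A) : Prop :=
  ∃! p : A × A, p.1 ∈ S ∧ p.2 ∉ S ∧ T.Adj p.1 p.2

theorem gap_lower {A : Type} [Fintype A] (T : SimpleGraph A) (hT : T.Connected) {i j : ℕ}
    (hi : 2 ≤ i) (hij : i ≤ j) (hm : i + j ≤ Fintype.card A)
    (hgap : ∀ S : Finset A, i ≤ S.card → S.card ≤ j → ¬ OneEdge T S) :
    ¬ Arrow T (⊤ : SimpleGraph (Fin 3)) (Fintype.card A + (j - i)) := by
  classical
  intro h
  rcases h (Fin (Fintype.card A - i) ⊕ Fin j) (two (Fintype.card A - i) j)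
    (by simp; omega) (two_conn _ _ (by omega) (by omega))
    (two_compl_conn _ _ (by omega) (by omega)) with h1 | h1
  · obtain ⟨f, hf, hf'⟩ := h1
    let S : Finset A := Finset.univ.filter fun x => (f x).isRight
    have hS1 : S.card ≤ j := by
      have : ∀ x : S, ∃ q, f x = Sum.inr q := by
        intro x
        have := (Finset.mem_filter.1 x.2).2
        exact Sum.isRight_iff.1 this
      choose g hg using this
      have hinj : Function.Injective g := by
        intro x y hxy
        apply Subtype.ext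
        apply hf
        rw [hg, hg, hxy]
      have := Fintype.card_le_of_injective _ hinj
      simpa using this
    have hS2 : Sᶜ.card ≤ Fintype.card A - i := by
      have : ∀ x : (Sᶜ : Finset A), ∃ q, f x = Sum.inl q := by
        intro x
        have h3 := Finset.mem_compl.1 x.2
        have h4 : ¬ (f x).isRight := fun h => h3 (Finset.mem_filter.2 ⟨Finset.mem_univ _, h⟩)
        exact Sum.isLeft_iff.1 (by simpa using h4)
      choose g hg using this
      have hinj : Function.Injective g := by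
        intro x y hxy
        apply Subtype.ext
        apply hf
        rw [hg, hg, hxy]
      have := Fintype.card_le_of_injective _ hinj
      rw [Fintype.card_coe, Fintype.card_fin] at this
      exact this
    have hS3 : S.card + Sᶜ.card = Fintype.card A := by
      rw [Finset.card_add_card_compl]
    refine hgap S (by omega) hS1 ?_
    -- every leaving edge is mapped to the link
    have hlink : ∀ x y, x ∈ S → y ∉ S → T.Adj x y →
        f x = Sum.inr ⟨0, by omega⟩ ∧ f y = Sum.inl ⟨0, by omega⟩ := by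
      intro x y hx hy hxy
      obtain ⟨q, hq⟩ := Sum.isRight_iff.1 (Finset.mem_filter.1 hx).2
      have h4 : ¬ (f y).isRight := fun h => hy (Finset.mem_filter.2 ⟨Finset.mem_univ _, h⟩)
      obtain ⟨p, hp⟩ := Sum.isLeft_iff.1 (show (f y).isLeft by simpa using h4)
      have h5 := hf' _ _ hxy.symm
      rw [hp, hq, two_lr] at h5
      rw [hp, hq]
      exact ⟨congrArg Sum.inr (Fin.ext h5.2), congrArg Sum.inl (Fin.ext h5.1)⟩
    -- some edge leaves
    obtain ⟨x, y, hx, hy, hxy⟩ : ∃ x y, x ∈ S ∧ y ∉ S ∧ T.Adj x y := by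
      by_contra hcon
      push Not at hcon
      obtain ⟨u, hu⟩ : S.Nonempty := Finset.card_pos.1 (by omega)
      obtain ⟨v, hv⟩ : Sᶜ.Nonempty := Finset.card_pos.1 (by omega)
      have key : ∀ y, T.Reachable u y → y ∈ S := by
        intro y hy
        rw [SimpleGraph.reachable_iff_reflTransGen] at hy
        induction hy with
        | refl => exact hu
        | @tail b c _ h2 ih =>
          by_contra hc
          exact hcon b c ih hc h2
      exact Finset.mem_compl.1 hv (key v (hT.preconnected u v))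
    refine ⟨(x, y), ⟨hx, hy, hxy⟩, ?_⟩
    rintro ⟨x', y'⟩ ⟨hx', hy', hxy'⟩
    have h6 := hlink x y hx hy hxy
    have h7 := hlink x' y' hx' hy' hxy'
    exact Prod.ext (hf (h7.1.trans h6.1.symm)) (hf (h7.2.trans h6.2.symm))
  · exact two_no_indep _ _ h1

end Pool.Agent.U107.CR
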