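import Pool.Agent.U107.CR.G

/-!
# Connected Ramsey numbers of paths versus the triangle
-/

set_option autoImplicit false

namespace Pool.Agent.U107.CR

/-- the path with `m` vertices -/
def path (m : ℕ) : SimpleGraph (Fin m) := SimpleGraph.fromRel fun a b => a.val + 1 = b.val

theorem sub_path {V : Type} (F : SimpleGraph V) (l : List V) (hn : l.Nodup)
    (hc : l.IsChain F.Adj) : Sub (path l.length) F := by
  refine ⟨fun i => l.get i, List.nodup_iff_injective_get.1 hn, ?_⟩
  rw [List.isChain_iff_getElem] at hc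
  intro a b hab
  rw [path, SimpleGraph.fromRel_adj] at hab
  obtain ⟨_, h | h⟩ := hab
  · have hb := b.isLt
    have h1 := hc a.val (by omega)
    simp only [List.get_eq_getElem]
    simp only [h] at h1
    exact h1
  · have ha := a.isLt
    have h1 := hc b.val (by omega)
    simp only [List.get_eq_getElem]
    simp only [h] at h1
    exact h1.symm

/-- three pairwise non-adjacent distinct vertices -/
theorem sub_three {V : Type} (F : SimpleGraph V) (a b c : V) (hab : a ≠ b) (hac : a ≠ c)
    (hbc : b ≠ c) (h1 : ¬ F.Adj a b) (h2 : ¬ F.Adj a c) (h3 : ¬ F.Adj b c) :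
    Sub (⊤ : SimpleGraph (Fin 3)) Fᶜ := by
  refine ⟨![a, b, c], ?_, ?_⟩
  · intro i j hij
    fin_cases i <;> fin_cases j <;> simp_all
  · intro i j hij
    rw [SimpleGraph.compl_adj]
    have h1' : ¬ F.Adj b a := fun h => h1 h.symm
    have h2' : ¬ F.Adj c a := fun h => h2 h.symm
    have h3' : ¬ F.Adj c b := fun h => h3 h.symm
    fin_cases i <;> fin_cases j
    · exact absurd rfl hij
    · exact ⟨hab, h1⟩
    · exact ⟨hac, h2⟩
    · exact ⟨hab.symm, h1'⟩
    · exact absurd rfl hij
    · exact ⟨hbc, h3⟩
    · exact ⟨hac.symm, h2'⟩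
    · exact ⟨hbc.symm, h3'⟩
    · exact absurd rfl hij

theorem extend {V : Type} [Fintype V] (F : SimpleGraph V) (hF : F.Connected)
    (h3 : ¬ Sub (⊤ : SimpleGraph (Fin 3)) Fᶜ) (l : List V) (hl : l ≠ []) (hn : l.Nodup)
    (hc : l.IsChain F.Adj) (hlen : l.length < Fintype.card V) :
    ∃ l' : List V, l'.Nodup ∧ l'.IsChain F.Adj ∧ l'.length = l.length + 1 := by
  classical
  -- an edge leaving `l`
  obtain ⟨x, y, hx, hy, hxy⟩ : ∃ x y, x ∈ l ∧ y ∉ l ∧ F.Adj x y := by
    by_contra hcon
    push Not at hcon
    obtain ⟨u, hu⟩ := List.exists_mem_of_ne_nil l hl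
    have key : ∀ y, F.Reachable u y → y ∈ l := by
      intro y hy
      rw [SimpleGraph.reachable_iff_reflTransGen] at hy
      induction hy with
      | refl => exact hu
      | @tail b c _ h2 ih =>
        by_contra hc'
        exact hcon b c ih hc' h2
    have h4 : (Finset.univ : Finset V) ⊆ l.toFinset := fun y _ =>
      List.mem_toFinset.2 (key y (hF.preconnected u y))
    have h5 := Finset.card_le_card h4
    rw [Finset.card_univ] at h5
    have h6 := List.toFinset_card_le l
    omega
  obtain ⟨A, B, rfl⟩ := List.append_of_mem hx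
  rcases A with _ | ⟨a, A⟩
  · refine ⟨y :: x :: B, ?_, ?_, by simp⟩
    · exact List.nodup_cons.2 ⟨hy, hn⟩
    · exact List.isChain_cons_cons.2 ⟨hxy.symm, hc⟩
  · by_cases hya : F.Adj y a
    · exact ⟨y :: ((a :: A) ++ x :: B), List.nodup_cons.2 ⟨hy, hn⟩,
        List.isChain_cons_cons.2 ⟨hya, hc⟩, by simp⟩
    -- the last vertex
    obtain ⟨C, v, hCv⟩ : ∃ C v, x :: B = C ++ [v] :=
      ⟨(x :: B).dropLast, (x :: B).getLast (by simp), (List.dropLast_append_getLast (by simp)).symm⟩
    have hv : v ∈ x :: B := by rw [hCv]; simp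
    by_cases hyv : F.Adj y v
    · refine ⟨((a :: A) ++ x :: B) ++ [y], ?_, ?_, by simp; omega⟩
      · rw [List.nodup_append]
        refine ⟨hn, by simp, ?_⟩
        intro c hc1 d hd
        rw [List.mem_singleton] at hd
        subst hd
        exact fun h => hy (h ▸ hc1)
      · rw [List.isChain_append]
        refine ⟨hc, by simp, ?_⟩
        intro c hc1 d hd
        rw [hCv, ← List.append_assoc, List.getLast?_concat] at hc1
        simp only [Option.mem_def, Option.some_inj] at hc1
        simp only [List.head?_cons, Option.mem_def, Option.some_inj] at hd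
        subst hc1; subst hd
        exact hyv.symm
    · have hav : a ≠ v := by
        rintro rfl
        rw [List.cons_append, List.nodup_cons] at hn
        exact hn.1 (List.mem_append.2 (Or.inr hv))
      have hya' : y ≠ a := by
        rintro rfl
        exact hy (by simp)
      have hyv' : y ≠ v := by
        rintro rfl
        exact hy (List.mem_append.2 (Or.inr hv))
      have hadj : F.Adj v a := by
        by_contra h
        exact h3 (sub_three F y a v hya' hyv' hav hya hyv (fun h' => h h'.symm))
      refine ⟨(y :: x :: B) ++ (a :: A), ?_, ?_, by simp; omega⟩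
      · have : ((y :: x :: B) ++ (a :: A)).Perm (y :: ((a :: A) ++ x :: B)) := by
          rw [List.cons_append]
          exact List.Perm.cons _ List.perm_append_comm
        exact this.nodup_iff.2 (List.nodup_cons.2 ⟨hy, hn⟩)
      · rw [List.isChain_append] at hc ⊢
        refine ⟨List.isChain_cons_cons.2 ⟨hxy.symm, hc.2.1⟩, hc.1, ?_⟩
        intro c hc1 d hd
        rw [show y :: x :: B = (y :: C) ++ [v] by rw [hCv]; rfl, List.getLast?_concat] at hc1
        simp only [Option.mem_def, Option.some_inj] at hc1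
        simp only [List.head?_cons, Option.mem_def, Option.some_inj] at hd
        subst hc1; subst hd
        exact hadj

theorem long_path {V : Type} [Fintype V] (F : SimpleGraph V) (hF : F.Connected)
    (h3 : ¬ Sub (⊤ : SimpleGraph (Fin 3)) Fᶜ) (k : ℕ) (hk : k + 1 ≤ Fintype.card V) :
    ∃ l : List V, l.Nodup ∧ l.IsChain F.Adj ∧ l.length = k + 1 := by
  induction k with
  | zero =>
    obtain ⟨v⟩ := hF.nonempty
    exact ⟨[v], by simp, by simp, rfl⟩
  | succ k ih =>
    obtain ⟨l, h1, h2, h4⟩ := ih (by omega)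
    obtain ⟨l', h5, h6, h7⟩ := extend F hF h3 l (by rintro rfl; simp at h4) h1 h2 (by omega)
    exact ⟨l', h5, h6, by omega⟩

theorem path_upper (m : ℕ) :
    Arrow (path m) (⊤ : SimpleGraph (Fin 3)) (max 4 m) := by
  intro V _ F hV hF _
  by_cases h3 : Sub (⊤ : SimpleGraph (Fin 3)) Fᶜ
  · exact Or.inr h3
  left
  rcases m with _ | m
  · exact ⟨fun i => i.elim0, fun i => i.elim0, fun i => i.elim0⟩
  · obtain ⟨l, h1, h2, h4⟩ := long_path F hF h3 m (by omega)
    have := sub_path F l h1 h2
    rwa [h4] at this

theorem cr_path (m : ℕ) : cr (path m) (⊤ : SimpleGraph (Fin 3)) = max 4 m := by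
  refine cr_eq (by omega) (path_upper m) ?_
  intro n hn hlt h
  have hm : 5 ≤ m := by omega
  have h1 := h.mono (show n ≤ m - 1 by omega)
  rcases h1 (Fin (m - 3) ⊕ Fin 2) (two (m - 3) 2) (by simp; omega)
    (two_conn _ _ (by omega) (by omega)) (two_compl_conn _ _ (by omega) (by omega)) with h2 | h2
  · obtain ⟨f, hf, _⟩ := h2
    have := Fintype.card_le_of_injective _ hf
    simp at this
    omega
  · exact two_no_indep _ _ h2

end Pool.Agent.U107.CR
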